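import Pool.Agent.Helper60_DPS.STA

set_option autoImplicit false

/-!
# Squad DPS, row MPO: `M n k r` is the polynomial `mp n k r` in `Y`
-/

namespace Pool.Agent.DPS.H60

open Finset Polynomial Pool.Agent.DPS

theorem mp_step {n k r : ℕ} (h : r + 1 ≤ k) :
    mp n k r = C (1 / ((k : ℝ) - r) ^ 2) * ((C (y n (r + 1)) - X) * mp n k (r + 1)) := by
  have hI : Finset.Ioc r k = insert (r + 1) (Finset.Ioc (r + 1) k) := by
    ext x
    simp only [Finset.mem_Ioc, Finset.mem_insert]
    omega
  have hn : (r + 1) ∉ Finset.Ioc (r + 1) k := by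
    simp
  have hf : ((k - r).factorial : ℝ) = ((k : ℝ) - r) * ((k - (r + 1)).factorial : ℝ) := by
    have h1 : k - r = (k - (r + 1)) + 1 := by omega
    have h2 : ((k - r : ℕ) : ℝ) = (k : ℝ) - r := by
      rw [Nat.cast_sub (by omega)]
    rw [← h2, h1, Nat.factorial_succ]
    push_cast
    rfl
  unfold mp
  rw [hI, Finset.prod_insert hn, hf]
  have h3 : (1 / (((k : ℝ) - r) * ((k - (r + 1)).factorial : ℝ)) ^ 2) =
      (1 / ((k : ℝ) - r) ^ 2) * (1 / ((k - (r + 1)).factorial : ℝ) ^ 2) := by
    rw [mul_pow, one_div_mul_one_div]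
  rw [h3, C_mul]
  ring

theorem mpo (hM : MRCStmt) (hK : MKIStmt) : MPOStmt := by
  intro n k
  have key : ∀ d r, r + d = k → aeval (Y n k) (mp n k r) = M n k r := by
    intro d
    induction d with
    | zero =>
      intro r hr
      have hr' : r = k := by omega
      subst hr'
      have h1 : mp n r r = 1 := by
        unfold mp
        simp
      rw [h1, map_one]
      refine LinearMap.ext fun f => ?_
      rw [hK n r f, Module.End.one_apply]
    | succ d ih =>
      intro r hr
      have h1 := ih (r + 1) (by omega)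
      refine LinearMap.ext fun f => ?_
      rw [mp_step (by omega), map_mul, aeval_C, map_mul, h1, Module.End.mul_apply,
        Module.algebraMap_end_apply, Module.End.mul_apply, aeval_fac, hM n k (r + 1) (by omega) (by omega) f]
      rw [smul_smul, Nat.add_sub_cancel]
      have h2 : ((k : ℝ) - r) ≠ 0 := by
        have : (r : ℝ) < k := by exact_mod_cast (by omega : r < k)
        linarith
      have h3 : 1 / ((k : ℝ) - r) ^ 2 * (((k : ℝ) - ((r + 1 : ℕ) : ℝ) + 1) ^ 2) = 1 := by
        push_cast
        have : (k : ℝ) - (r + 1) + 1 = k - r := by ring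
        rw [this]
        field_simp
      rw [h3, one_smul]
  intro r hr
  exact key (k - r) r (by omega)

end Pool.Agent.DPS.H60
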