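import Pool.Agent.DPS.Stmts

set_option autoImplicit false

/-!
# Squad DPS, row STA: the star is killed by the product of `y l - Y`, `l ≤ t`
-/

namespace Pool.Agent.DPS.H60

open Finset Polynomial Pool.Agent.DPS

theorem aeval_fac {n k : ℕ} (c : ℝ) (f : KS n k → ℝ) :
    aeval (Y n k) (C c - X : ℝ[X]) f = c • f - Y n k f := by
  rw [map_sub, aeval_C, aeval_X, LinearMap.sub_apply, Module.algebraMap_end_apply]

theorem sta (hS : STRStmt) : STAStmt := by
  intro n k t
  induction t with
  | zero =>
    intro T hT
    have hT0 : T = ∅ := Finset.card_eq_zero.1 hT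
    subst hT0
    rw [zero_add, Finset.prod_range_one, aeval_fac, hS n k ∅]
    simp
  | succ t ih =>
    intro T hT
    rw [Finset.prod_range_succ, map_mul, Module.End.mul_apply, aeval_fac]
    have h1 : y n (t + 1) • star k T - Y n k (star k T) =
        ((k : ℝ) - T.card + 1) • ∑ a ∈ T, star k (T.erase a) := by
      rw [hS n k T, hT]
      abel
    rw [h1, map_smul, map_sum]
    have h2 : ∀ a ∈ T, aeval (Y n k) (∏ l ∈ Finset.range (t + 1), (C (y n l) - X))
        (star k (T.erase a)) = 0 := by
      intro a ha
      refine ih (T.erase a) ?_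
      rw [Finset.card_erase_of_mem ha, hT]
      rfl
    rw [Finset.sum_eq_zero h2, smul_zero]

end Pool.Agent.DPS.H60
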