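import Pool.Agent.DPS.Stmts

set_option autoImplicit false

/-!
# Squad DPS, row STR: the Laplacian of the Johnson graph on a star
-/

namespace Pool.Agent.DPS.H60

open Finset Polynomial Pool.Agent.DPS

theorem subset_sw {n k : ℕ} (T : Finset (Fin n)) (a b : Fin n) (F : KS n k) :
    T ⊆ (sw a b F).1 ↔ ∀ x ∈ T, Equiv.swap a b x ∈ F.1 := by
  unfold sw
  constructor
  · intro h x hx
    have h1 := h hx
    rw [Finset.mem_map_equiv] at h1
    simpa using h1
  · intro h x hx
    rw [Finset.mem_map_equiv]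
    simpa using h x hx

theorem sw_both_in {n k : ℕ} (T : Finset (Fin n)) (F : KS n k) {a b : Fin n} (ha : a ∈ T)
    (hb : b ∈ T) : (∀ x ∈ T, Equiv.swap a b x ∈ F.1) ↔ T ⊆ F.1 := by
  have h1 : ∀ x ∈ T, Equiv.swap a b x ∈ T := by
    intro x hx
    rcases eq_or_ne x a with rfl | h1
    · rw [Equiv.swap_apply_left]
      exact hb
    rcases eq_or_ne x b with rfl | h2
    · rw [Equiv.swap_apply_right]
      exact ha
    rw [Equiv.swap_apply_of_ne_of_ne h1 h2]
    exact hx
  constructor
  · intro h x hx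
    have h2 := h _ (h1 x hx)
    rwa [← Equiv.Perm.mul_apply, Equiv.swap_mul_self, Equiv.Perm.one_apply] at h2
  · intro h x hx
    exact h (h1 x hx)

theorem sw_both_out {n k : ℕ} (T : Finset (Fin n)) (F : KS n k) {a b : Fin n} (ha : a ∉ T)
    (hb : b ∉ T) : (∀ x ∈ T, Equiv.swap a b x ∈ F.1) ↔ T ⊆ F.1 := by
  have h1 : ∀ x ∈ T, Equiv.swap a b x = x := by
    intro x hx
    refine Equiv.swap_apply_of_ne_of_ne ?_ ?_
    · rintro rfl
      exact ha hx
    · rintro rfl
      exact hb hx
  constructor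
  · intro h x hx
    have h2 := h x hx
    rwa [h1 x hx] at h2
  · intro h x hx
    rw [h1 x hx]
    exact h hx

theorem sw_mix {n k : ℕ} (T : Finset (Fin n)) (F : KS n k) {a b : Fin n} (ha : a ∈ T)
    (hb : b ∉ T) : (∀ x ∈ T, Equiv.swap a b x ∈ F.1) ↔ (T.erase a ⊆ F.1 ∧ b ∈ F.1) := by
  constructor
  · intro h
    refine ⟨?_, ?_⟩
    · intro x hx
      obtain ⟨h1, h2⟩ := Finset.mem_erase.1 hx
      have h3 := h x h2
      rwa [Equiv.swap_apply_of_ne_of_ne h1 (by rintro rfl; exact hb h2)] at h3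
    · have h3 := h a ha
      rwa [Equiv.swap_apply_left] at h3
  · rintro ⟨h1, h2⟩ x hx
    rcases eq_or_ne x a with rfl | h3
    · rw [Equiv.swap_apply_left]
      exact h2
    rw [Equiv.swap_apply_of_ne_of_ne h3 (by rintro rfl; exact hb hx)]
    exact h1 (Finset.mem_erase.2 ⟨h3, hx⟩)

theorem inner_sum {n k : ℕ} (T : Finset (Fin n)) (F : KS n k) {a : Fin n} (ha : a ∈ T) :
    ∑ b ∈ Tᶜ, (star k T F - star k T (sw a b F)) =
      ((n : ℝ) - T.card + 1) * star k T F - ((k : ℝ) - T.card + 1) * star k (T.erase a) F := by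
  have hstep : ∑ b ∈ Tᶜ, (star k T F - star k T (sw a b F)) =
      ∑ b ∈ Tᶜ, (star k T F - if T.erase a ⊆ F.1 ∧ b ∈ F.1 then (1 : ℝ) else 0) := by
    refine Finset.sum_congr rfl fun b hb => ?_
    congr 1
    unfold star
    have := (subset_sw T a b F).trans (sw_mix T F ha (Finset.mem_compl.1 hb))
    by_cases h : T.erase a ⊆ F.1 ∧ b ∈ F.1
    · rw [if_pos (this.2 h), if_pos h]
    · rw [if_neg (fun h2 => h (this.1 h2)), if_neg h]
  rw [hstep, Finset.sum_sub_distrib, Finset.sum_const, nsmul_eq_mul]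
  have hc : ((Tᶜ).card : ℝ) = (n : ℝ) - T.card := by
    have h1 : T.card ≤ n := by
      have := Finset.card_le_univ T
      simpa using this
    rw [Finset.card_compl, Fintype.card_fin, Nat.cast_sub h1]
  rw [hc]
  by_cases hE : T.erase a ⊆ F.1
  · have h1 : ∑ b ∈ Tᶜ, (if T.erase a ⊆ F.1 ∧ b ∈ F.1 then (1 : ℝ) else 0) =
        ((F.1 \ T).card : ℝ) := by
      have h2 : ∀ b, (T.erase a ⊆ F.1 ∧ b ∈ F.1) ↔ b ∈ F.1 := fun b => ⟨fun h => h.2, fun h => ⟨hE, h⟩⟩
      simp only [h2]
      rw [Finset.sum_ite_mem, Finset.sum_const, nsmul_eq_mul, mul_one]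
      congr 2
      ext x
      simp only [Finset.mem_inter, Finset.mem_compl, Finset.mem_sdiff]
      tauto
    have h3 : ((F.1 \ T).card : ℝ) + ((F.1 ∩ T).card : ℝ) = k := by
      have h4 := Finset.card_sdiff_add_card_inter F.1 T
      rw [F.2] at h4
      exact_mod_cast h4
    have hstarE : star k (T.erase a) F = 1 := by
      unfold star
      rw [if_pos hE]
    rw [h1, hstarE]
    by_cases haF : a ∈ F.1
    · have hTF : T ⊆ F.1 := by
        intro x hx
        rcases eq_or_ne x a with rfl | h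
        · exact haF
        · exact hE (Finset.mem_erase.2 ⟨h, hx⟩)
      have hs : star k T F = 1 := by
        unfold star
        rw [if_pos hTF]
      have h5 : F.1 ∩ T = T := Finset.inter_eq_right.2 hTF
      rw [h5] at h3
      rw [hs]
      linarith
    · have hTF : ¬ T ⊆ F.1 := fun h => haF (h ha)
      have hs : star k T F = 0 := by
        unfold star
        rw [if_neg hTF]
      have h5 : F.1 ∩ T = T.erase a := by
        ext x
        simp only [Finset.mem_inter, Finset.mem_erase]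
        constructor
        · rintro ⟨h6, h7⟩
          refine ⟨?_, h7⟩
          rintro rfl
          exact haF h6
        · rintro ⟨h6, h7⟩
          exact ⟨hE (Finset.mem_erase.2 ⟨h6, h7⟩), h7⟩
      have h6 : ((T.erase a).card : ℝ) = (T.card : ℝ) - 1 := by
        have := Finset.card_erase_add_one ha
        have h7 : ((T.erase a).card : ℝ) + 1 = (T.card : ℝ) := by exact_mod_cast this
        linarith
      rw [h5, h6] at h3
      rw [hs]
      linarith
  · have h1 : ∀ b, ¬ (T.erase a ⊆ F.1 ∧ b ∈ F.1) := fun b h => hE h.1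
    have hs : star k T F = 0 := by
      unfold star
      rw [if_neg (fun h => hE ((Finset.erase_subset a T).trans h))]
    have hsE : star k (T.erase a) F = 0 := by
      unfold star
      rw [if_neg hE]
    rw [hs, hsE]
    simp only [h1, if_false, Finset.sum_const_zero, mul_zero, sub_zero]

theorem str : STRStmt := by
  intro n k T
  funext F
  have hY : Y n k (star k T) F = (1 / 2) * ∑ a : Fin n, ∑ b : Fin n,
    (star k T F - star k T (sw a b F)) := rfl
  have h11 : ∀ a ∈ T, ∀ b ∈ T, star k T F - star k T (sw a b F) = 0 := by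
    intro a ha b hb
    unfold star
    have := (subset_sw T a b F).trans (sw_both_in T F ha hb)
    by_cases h : T ⊆ F.1
    · rw [if_pos h, if_pos (this.2 h), sub_self]
    · rw [if_neg h, if_neg (fun h2 => h (this.1 h2)), sub_self]
  have h00 : ∀ a ∈ Tᶜ, ∀ b ∈ Tᶜ, star k T F - star k T (sw a b F) = 0 := by
    intro a ha b hb
    unfold star
    have := (subset_sw T a b F).trans (sw_both_out T F (Finset.mem_compl.1 ha) (Finset.mem_compl.1 hb))
    by_cases h : T ⊆ F.1
    · rw [if_pos h, if_pos (this.2 h), sub_self]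
    · rw [if_neg h, if_neg (fun h2 => h (this.1 h2)), sub_self]
  have hsymm : ∀ a b, sw a b F = sw b a F := by
    intro a b
    unfold sw
    simp only [Equiv.swap_comm a b]
  have hsum : ∑ a : Fin n, ∑ b : Fin n, (star k T F - star k T (sw a b F)) =
      2 * ∑ a ∈ T, ∑ b ∈ Tᶜ, (star k T F - star k T (sw a b F)) := by
    rw [← Finset.sum_add_sum_compl T]
    have e1 : ∑ a ∈ T, ∑ b : Fin n, (star k T F - star k T (sw a b F)) =
        ∑ a ∈ T, ∑ b ∈ Tᶜ, (star k T F - star k T (sw a b F)) := by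
      refine Finset.sum_congr rfl fun a ha => ?_
      rw [← Finset.sum_add_sum_compl T, Finset.sum_eq_zero (h11 a ha), zero_add]
    have e2 : ∑ a ∈ Tᶜ, ∑ b : Fin n, (star k T F - star k T (sw a b F)) =
        ∑ a ∈ Tᶜ, ∑ b ∈ T, (star k T F - star k T (sw a b F)) := by
      refine Finset.sum_congr rfl fun a ha => ?_
      rw [← Finset.sum_add_sum_compl T, Finset.sum_eq_zero (h00 a ha), add_zero]
    rw [e1, e2, Finset.sum_comm (s := Tᶜ)]
    have e3 : ∑ b ∈ T, ∑ a ∈ Tᶜ, (star k T F - star k T (sw a b F)) =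
        ∑ a ∈ T, ∑ b ∈ Tᶜ, (star k T F - star k T (sw a b F)) :=
      Finset.sum_congr rfl fun a _ => Finset.sum_congr rfl fun b _ => by rw [hsymm b a]
    rw [e3]
    ring
  rw [hY, hsum, Finset.sum_congr rfl fun a ha => inner_sum T F ha, Finset.sum_sub_distrib,
    Finset.sum_const, nsmul_eq_mul, ← Finset.mul_sum]
  simp only [Pi.sub_apply, Pi.smul_apply, smul_eq_mul, Finset.sum_apply, y]
  ring

end Pool.Agent.DPS.H60
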